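import Pool.Agent.Run7.h376.G.Cor
import Pool.Agent.Run7.h285.L.Stm

/-!
# Project LIO, piece GCL: one block

After `Run7/h376/V/Cor.lean` (helper376).
-/

set_option autoImplicit false
set_option linter.all false

namespace Pool.Agent.Run7.h216.L

open Finset Filter Topology
open Run7.h285.L (ev)
open Run7.h376.CGS (sum_nat)
open Run7.h376.G (icc_shift')
open Pool.Agent.Run7.h27.MK (gI)

/-- the crossed terms -/
theorem cross_h {h : ℕ → ℝ} (hh : ∀ n, |h n| ≤ 1) (N : ℕ) (w : ℕ → ℝ) (hw : ∀ t, |w t| ≤ 1) (E : ℤ) :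
    |∑ t ∈ Icc 1 N, w t * ev h ((t : ℤ) + E)| ≤ |∑ t ∈ Icc 1 N, w t * gI h ((t : ℤ) + E)| + |(E : ℝ)| := by
  have h1 : |∑ t ∈ Icc 1 N, w t * ev h ((t : ℤ) + E) - ∑ t ∈ Icc 1 N, w t * gI h ((t : ℤ) + E)| ≤ |(E : ℝ)| := by
    rw [← sum_sub_distrib]
    calc _ ≤ ∑ t ∈ Icc 1 N, |w t * ev h ((t : ℤ) + E) - w t * gI h ((t : ℤ) + E)| :=
          abs_sum_le_sum_abs _ _
      _ ≤ ∑ t ∈ Icc 1 N, (if (t : ℤ) ≤ -E then 1 else 0) := by
          apply sum_le_sum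
          intro t _
          rw [← mul_sub, abs_mul]
          split_ifs with h7
          · have e : gI h ((t : ℤ) + E) = 0 := by
              unfold gI
              rw [if_neg (by omega)]
            rw [e, sub_zero]
            exact mul_le_one₀ (hw t) (abs_nonneg _) (hh _)
          · have e : ev h ((t : ℤ) + E) = gI h ((t : ℤ) + E) := by
              unfold gI ev
              rw [if_pos (by omega)]
              congr 1
              omega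
            rw [e, sub_self, abs_zero, mul_zero]
      _ ≤ ∑ t ∈ Icc 1 (-E).toNat, (1 : ℝ) := by
          rw [← sum_filter]
          apply sum_le_sum_of_subset_of_nonneg
          · intro t ht
            rw [mem_filter, mem_Icc] at ht
            rw [mem_Icc]
            omega
          · intro t _ _
            exact zero_le_one
      _ = (-E).toNat := by
          rw [sum_const, Nat.card_Icc, nsmul_eq_mul, Nat.add_sub_cancel, mul_one]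
      _ ≤ |(E : ℝ)| := by
          have h1 : (((-E).toNat : ℕ) : ℤ) ≤ |E| := by
            rw [Int.toNat_eq_max]
            exact max_le (neg_le_abs E) (abs_nonneg E)
          have h2 : ((((-E).toNat : ℕ) : ℤ) : ℝ) ≤ ((|E| : ℤ) : ℝ) := by exact_mod_cast h1
          rw [Int.cast_natCast, Int.cast_abs] at h2
          exact h2
  have h2 := abs_add_le (∑ t ∈ Icc 1 N, w t * ev h ((t : ℤ) + E) - ∑ t ∈ Icc 1 N, w t * gI h ((t : ℤ) + E))
    (∑ t ∈ Icc 1 N, w t * gI h ((t : ℤ) + E))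
  rw [sub_add_cancel] at h2
  linarith

/-- the splitting of the mixed correlation in an interval, any shift -/
theorem split_h (h : ℕ → ℝ) {N : ℕ} {a b D : ℤ} (hb : b ≤ N) (ha : -a ≤ N) (F : ℤ → ℝ) (hF0 : F 0 = 0) :
    ∑ k ∈ Icc a b, F k * ev h (k + D) =
      ∑ t ∈ Icc 1 N, (if (t : ℤ) ∈ Icc a b then F t else 0) * ev h ((t : ℤ) + D) +
      ∑ t ∈ Icc 1 N, (if -(t : ℤ) ∈ Icc a b then F (-(t : ℤ)) else 0) * ev h ((t : ℤ) + -D) := by
  have h1 : ∑ k ∈ Icc a b, F k * ev h (k + D) = ∑ k ∈ Icc a b, (if 0 < k then F k else 0) * ev h (k + D) +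
      ∑ k ∈ Icc a b, (if k < 0 then F k else 0) * ev h (k + D) := by
    rw [← sum_add_distrib]
    apply sum_congr rfl
    intro k _
    rcases lt_trichotomy k 0 with h | h | h
    · rw [if_neg (by omega), if_pos h]; ring
    · rw [h, hF0]; simp
    · rw [if_pos h, if_neg (by omega)]; ring
  have h2 : ∑ k ∈ Icc a b, (if k < 0 then F k else 0) * ev h (k + D) =
      ∑ k ∈ Icc (-b) (-a), (if 0 < k then F (-k) else 0) * ev h (-k + D) := by
    apply sum_nbij' (fun k => -k) (fun k => -k)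
    · intro k hk; rw [mem_Icc] at hk ⊢; constructor <;> omega
    · intro k hk; rw [mem_Icc] at hk ⊢; constructor <;> omega
    · intro k _; ring
    · intro k _; ring
    · intro k _
      rw [neg_neg]
      congr 1
      by_cases h : k < 0
      · rw [if_pos h, if_pos (by omega)]
      · rw [if_neg h, if_neg (by omega)]
  rw [h1, h2, sum_nat hb (fun k => (if 0 < k then F k else 0) * ev h (k + D)) (fun k hk => by rw [if_neg (by omega), zero_mul]),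
    sum_nat ha (fun k => (if 0 < k then F (-k) else 0) * ev h (-k + D)) (fun k hk => by rw [if_neg (by omega), zero_mul])]
  congr 1
  · apply sum_congr rfl
    intro t ht
    rw [mem_Icc] at ht
    split_ifs with h h'
    · rfl
    · exact absurd (by omega : (0 : ℤ) < t) h'
    · ring
  · apply sum_congr rfl
    intro t ht
    rw [mem_Icc] at ht
    have hiff : (t : ℤ) ∈ Icc (-b) (-a) ↔ -(t : ℤ) ∈ Icc a b := by
      rw [mem_Icc, mem_Icc]; omega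
    by_cases h : -(t : ℤ) ∈ Icc a b
    · rw [if_pos (hiff.2 h), if_pos h, if_pos (by omega : (0 : ℤ) < t)]
      have : ∀ h : ℕ → ℝ, ev h (-(t : ℤ) + D) = ev h ((t : ℤ) + -D) := by
        intro h
        unfold ev
        congr 1
        omega
      rw [this]
    · rw [if_neg (fun h' => h (hiff.1 h')), if_neg h]; ring

theorem cor_h {h : ℕ → ℝ} (hh : ∀ n, |h n| ≤ 1) {N X : ℕ} {c₀ c₁ c₂ : ℤ} {Dm Δ : ℝ}
    (hNX : |c₀| + X ≤ N) (hD : |((c₂ - c₁ : ℤ) : ℝ)| ≤ Dm) (hΔ : |((c₁ - c₀ : ℤ) : ℝ)| ≤ Δ)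
    (F : ℤ → ℝ) (hF : ∀ y, |F y| ≤ 1) (hF0 : F 0 = 0) :
    |∑ c ∈ Icc (-(X : ℤ)) X, F (c₁ + c) * ev h (c₂ + c)| ≤ 2 * Δ + 2 * Dm +
      |∑ t ∈ Icc 1 N, (if (t : ℤ) ∈ Icc (c₀ - X) (c₀ + X) then F t else 0) *
        gI h ((t : ℤ) + 1 * (c₂ - c₁))| +
      |∑ t ∈ Icc 1 N, (if -(t : ℤ) ∈ Icc (c₀ - X) (c₀ + X) then F (-(t : ℤ)) else 0) *
        gI h ((t : ℤ) + -1 * (c₂ - c₁))| := by
  obtain ⟨D, hDdef⟩ : ∃ D : ℤ, D = c₂ - c₁ := ⟨_, rfl⟩
  obtain ⟨a, ha⟩ : ∃ a : ℤ, a = c₀ - X := ⟨_, rfl⟩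
  obtain ⟨b, hb⟩ : ∃ b : ℤ, b = c₀ + X := ⟨_, rfl⟩
  rw [← ha, ← hb, ← hDdef]
  rw [← hDdef] at hD
  obtain ⟨δ, hδ⟩ : ∃ δ : ℤ, δ = c₁ - c₀ := ⟨_, rfl⟩
  rw [← hδ] at hΔ
  have e1 : ∑ c ∈ Icc (-(X : ℤ)) X, F (c₁ + c) * ev h (c₂ + c) =
      ∑ k ∈ Icc (a + δ) (b + δ), F k * ev h (k + D) := by
    apply sum_nbij' (fun c => c₁ + c) (fun k => k - c₁)
    · intro k hk
      rw [mem_Icc] at hk ⊢
      constructor <;> omega
    · intro k hk
      rw [mem_Icc] at hk ⊢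
      constructor <;> omega
    · intro k _; ring
    · intro k _; ring
    · intro k _
      congr 2
      rw [hDdef]
      ring
  have h1 := icc_shift' (f := fun k => F k * ev h (k + D)) (Kf := 1) (by
    intro k
    rw [abs_mul]
    exact mul_le_one₀ (hF k) (abs_nonneg _) (hh _)) a b δ
  rw [← e1] at h1
  have hc0 := le_abs_self c₀
  have hc0' := neg_abs_le c₀
  have hbN : b ≤ N := by
    rw [hb]
    linarith
  have haN : -a ≤ N := by
    rw [ha]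
    linarith
  have h2 := split_h h (D := D) hbN haN F hF0
  have b1 : ∀ t : ℕ, |if (t : ℤ) ∈ Icc a b then F t else 0| ≤ 1 := by
    intro t
    split_ifs
    · exact hF _
    · rw [abs_zero]; exact zero_le_one
  have b2 : ∀ t : ℕ, |if -(t : ℤ) ∈ Icc a b then F (-(t : ℤ)) else 0| ≤ 1 := by
    intro t
    split_ifs
    · exact hF _
    · rw [abs_zero]; exact zero_le_one
  have h3 := cross_h hh N (fun t => if (t : ℤ) ∈ Icc a b then F t else 0) b1 D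
  have h4 := cross_h hh N (fun t => if -(t : ℤ) ∈ Icc a b then F (-(t : ℤ)) else 0) b2 (-D)
  rw [Int.cast_neg, abs_neg] at h4
  have h6 : |∑ k ∈ Icc a b, F k * ev h (k + D)| ≤
      |∑ t ∈ Icc 1 N, (if (t : ℤ) ∈ Icc a b then F t else 0) * ev h ((t : ℤ) + D)| +
      |∑ t ∈ Icc 1 N, (if -(t : ℤ) ∈ Icc a b then F (-(t : ℤ)) else 0) * ev h ((t : ℤ) + -D)| := by
    rw [h2]
    exact abs_add_le _ _
  have h8 := abs_add_le (∑ c ∈ Icc (-(X : ℤ)) X, F (c₁ + c) * ev h (c₂ + c) - ∑ k ∈ Icc a b, F k * ev h (k + D))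
      (∑ k ∈ Icc a b, F k * ev h (k + D))
  rw [sub_add_cancel] at h8
  rw [one_mul, neg_one_mul]
  linarith

/-- one block -/
theorem block_h {h : ℕ → ℝ} (hh : ∀ n, |h n| ≤ 1) {N X M₁ : ℕ} (c₀ : ℤ) (c₁ c₂ : ℕ → ℤ) {Dm Δ Q : ℝ}
    (hM : 1 ≤ M₁) (hNX : |c₀| + X ≤ N)
    (hD : ∀ m ∈ Icc 1 M₁, |((c₂ m - c₁ m : ℤ) : ℝ)| ≤ Dm)
    (hΔ : ∀ m ∈ Icc 1 M₁, |((c₁ m - c₀ : ℤ) : ℝ)| ≤ Δ) (F : ℤ → ℝ) (hF : ∀ y, |F y| ≤ 1)
    (hlaw : ∀ σ : ℤ, σ = 1 ∨ σ = -1 → ∀ G : ℕ → ℝ, (∀ n ∈ Icc 1 N, |G n| ≤ 1) →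
      ∑ m ∈ Icc 1 M₁, (1 / (M₁ : ℝ)) *
        |∑ n ∈ Icc 1 N, G n * gI h ((n : ℤ) + σ * (c₂ m - c₁ m))| ≤ Q) :
    ∑ m ∈ Icc 1 M₁, |∑ c ∈ Icc (-(X : ℤ)) X, F (c₁ m + c) * ev h (c₂ m + c)| ≤
      M₁ * (2 * Δ + 2 * Dm + 2 * Q + 1) := by
  have hM0 : (0 : ℝ) < M₁ := by exact_mod_cast hM
  obtain ⟨a, ha⟩ : ∃ a : ℤ, a = c₀ - X := ⟨_, rfl⟩
  obtain ⟨b, hb⟩ : ∃ b : ℤ, b = c₀ + X := ⟨_, rfl⟩
  obtain ⟨F₀, hF₀⟩ : ∃ F₀ : ℤ → ℝ, F₀ = fun k => if k = 0 then 0 else F k := ⟨_, rfl⟩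
  have hF₀1 : ∀ y, |F₀ y| ≤ 1 := by
    intro y
    rw [hF₀]
    dsimp only
    split_ifs
    · rw [abs_zero]; exact zero_le_one
    · exact hF y
  have hF₀0 : F₀ 0 = 0 := by
    rw [hF₀]
    dsimp only
    rw [if_pos rfl]
  have b1 : ∀ t : ℕ, |if (t : ℤ) ∈ Icc a b then F₀ t else 0| ≤ 1 := by
    intro t
    split_ifs
    · exact hF₀1 _
    · rw [abs_zero]; exact zero_le_one
  have b2 : ∀ t : ℕ, |if -(t : ℤ) ∈ Icc a b then F₀ (-(t : ℤ)) else 0| ≤ 1 := by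
    intro t
    split_ifs
    · exact hF₀1 _
    · rw [abs_zero]; exact zero_le_one
  have l1 := hlaw 1 (Or.inl rfl) (fun t => if (t : ℤ) ∈ Icc a b then F₀ t else 0) (fun n _ => b1 n)
  have l2 := hlaw (-1) (Or.inr rfl) (fun t => if -(t : ℤ) ∈ Icc a b then F₀ (-(t : ℤ)) else 0) (fun n _ => b2 n)
  rw [← mul_sum, one_div, inv_mul_le_iff₀ hM0] at l1 l2
  have hsum : ∑ m ∈ Icc 1 M₁, |∑ c ∈ Icc (-(X : ℤ)) X, F (c₁ m + c) * ev h (c₂ m + c)| ≤ ∑ m ∈ Icc 1 M₁,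
      ((2 * Δ + 2 * Dm + 1) +
      |∑ t ∈ Icc 1 N, (if (t : ℤ) ∈ Icc a b then F₀ t else 0) *
        gI h ((t : ℤ) + 1 * (c₂ m - c₁ m))| +
      |∑ t ∈ Icc 1 N, (if -(t : ℤ) ∈ Icc a b then F₀ (-(t : ℤ)) else 0) *
        gI h ((t : ℤ) + -1 * (c₂ m - c₁ m))|) := by
    apply sum_le_sum
    intro m hm
    have g1 := cor_h hh hNX (hD m hm) (hΔ m hm) F₀ hF₀1 hF₀0
    rw [← ha, ← hb] at g1
    have g2 : |∑ c ∈ Icc (-(X : ℤ)) X, F (c₁ m + c) * ev h (c₂ m + c) -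
        ∑ c ∈ Icc (-(X : ℤ)) X, F₀ (c₁ m + c) * ev h (c₂ m + c)| ≤ 1 := by
      rw [← sum_sub_distrib]
      have q1 : ∀ c : ℤ, F (c₁ m + c) * ev h (c₂ m + c) - F₀ (c₁ m + c) * ev h (c₂ m + c) =
          if c = -c₁ m then F (c₁ m + c) * ev h (c₂ m + c) else 0 := by
        intro c
        rw [hF₀]
        dsimp only
        by_cases h : c₁ m + c = 0
        · rw [if_pos h, if_pos (by omega)]; ring
        · rw [if_neg h, if_neg (by omega)]; ring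
      simp only [q1]
      rw [sum_ite_eq']
      split_ifs
      · rw [abs_mul]
        exact mul_le_one₀ (hF _) (abs_nonneg _) (hh _)
      · rw [abs_zero]; exact zero_le_one
    have g4 := abs_add_le (∑ c ∈ Icc (-(X : ℤ)) X, F (c₁ m + c) * ev h (c₂ m + c) -
      ∑ c ∈ Icc (-(X : ℤ)) X, F₀ (c₁ m + c) * ev h (c₂ m + c))
      (∑ c ∈ Icc (-(X : ℤ)) X, F₀ (c₁ m + c) * ev h (c₂ m + c))
    rw [sub_add_cancel] at g4
    linarith
  rw [sum_add_distrib, sum_add_distrib, sum_const, Nat.card_Icc, nsmul_eq_mul, Nat.add_sub_cancel] at hsum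
  linarith

end Pool.Agent.Run7.h216.L
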