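import Pool.Agent.Run7.h285.L.Stm

/-!
# Project LIO (helper285), piece LVar: the second moment is the diagonal
-/

set_option autoImplicit false
set_option linter.all false

open Finset Polynomial

namespace Pool.Agent.Run7.h216.L

open Run7.h285.L
open Run7.h285.V (mc)

theorem lvar (h : ℕ → ℝ) (g : ℤ[X]) (hh : ∀ n, |h n| ≤ 1) (hG : S_GCL h g) : S_LVar h g := by
  intro U C D
  obtain ⟨B, X₀, hB⟩ := hG U C D
  refine ⟨B, X₀, ?_⟩
  intro X hX m₀ M H hH hHL hM hsz ω hω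
  have hev : ∀ y : ℤ, |ev h y| ≤ 1 := fun y => hh _
  have hws : ∀ (m : ℕ) (f : ℕ → ℝ), ∑ n ∈ Ioc m (m + H), f n = ∑ i ∈ Icc 1 H, f (m + i) := by
    intro m f
    refine sum_nbij' (fun i => i - m) (fun t => m + t) ?_ ?_ ?_ ?_ ?_
    · intro i hi
      rw [mem_Ioc] at hi; rw [mem_Icc]; omega
    · intro t ht
      rw [mem_Icc] at ht; rw [mem_Ioc]; omega
    · intro i hi
      rw [mem_Ioc] at hi; omega
    · intro t ht
      omega
    · intro i hi
      rw [mem_Ioc] at hi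
      show f i = f (m + (i - m))
      rw [show m + (i - m) = i by omega]
  rw [Finset.sum_comm, ← Finset.sum_sub_distrib]
  have key : ∀ m ∈ Ioc m₀ (m₀ + M),
      ∑ a ∈ Icc (-(X : ℤ)) X, (∑ n ∈ Ioc m (m + H), ω n * ev h (g.eval (n : ℤ) + a)) ^ 2 -
        ∑ n ∈ Ioc m (m + H), ω n ^ 2 * ∑ a ∈ Icc (-(X : ℤ)) X, ev h (g.eval (n : ℤ) + a) ^ 2 =
      ∑ i ∈ Icc 1 H, ∑ j ∈ (Icc 1 H).erase i, ω (m + i) * ω (m + j) *
        mc g (ev h) (ev h) X (m + i) (m + j) := by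
    intro m _
    have h1 : ∑ a ∈ Icc (-(X : ℤ)) X, (∑ n ∈ Ioc m (m + H), ω n * ev h (g.eval (n : ℤ) + a)) ^ 2 =
        ∑ i ∈ Icc 1 H, ∑ j ∈ Icc 1 H, ω (m + i) * ω (m + j) *
          mc g (ev h) (ev h) X (m + i) (m + j) := by
      have h2 : ∀ a ∈ Icc (-(X : ℤ)) X,
          (∑ n ∈ Ioc m (m + H), ω n * ev h (g.eval (n : ℤ) + a)) ^ 2 =
          ∑ i ∈ Icc 1 H, ∑ j ∈ Icc 1 H, ω (m + i) * ω (m + j) *
            (ev h (g.eval ((m + i : ℕ) : ℤ) + a) * ev h (g.eval ((m + j : ℕ) : ℤ) + a)) := by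
        intro a _
        rw [hws, sq, sum_mul_sum]
        refine sum_congr rfl fun i _ => sum_congr rfl fun j _ => ?_
        ring
      rw [sum_congr rfl h2, sum_comm]
      refine sum_congr rfl fun i _ => ?_
      rw [sum_comm]
      refine sum_congr rfl fun j _ => ?_
      unfold mc
      rw [mul_sum]
    rw [h1, hws, ← Finset.sum_sub_distrib]
    refine sum_congr rfl fun i hi => ?_
    rw [← Finset.add_sum_erase _ _ hi]
    have h3 : mc g (ev h) (ev h) X (m + i) (m + i) =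
        ∑ a ∈ Icc (-(X : ℤ)) X, ev h (g.eval ((m + i : ℕ) : ℤ) + a) ^ 2 := by
      unfold mc
      exact sum_congr rfl fun c _ => (sq _).symm
    rw [h3]
    ring
  rw [sum_congr rfl key]
  refine (abs_sum_le_sum_abs _ _).trans ?_
  have h4 : ∀ m ∈ Ioc m₀ (m₀ + M), |∑ i ∈ Icc 1 H, ∑ j ∈ (Icc 1 H).erase i, ω (m + i) * ω (m + j) *
        mc g (ev h) (ev h) X (m + i) (m + j)| ≤
      ∑ i ∈ Icc 1 H, ∑ j ∈ (Icc 1 H).erase i, |mc g (ev h) (ev h) X (m + i) (m + j)| := by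
    intro m _
    refine (abs_sum_le_sum_abs _ _).trans (sum_le_sum fun i _ => ?_)
    refine (abs_sum_le_sum_abs _ _).trans (sum_le_sum fun j _ => ?_)
    rw [abs_mul, abs_mul]
    have h5 : |ω (m + i)| * |ω (m + j)| ≤ 1 := mul_le_one₀ (hω _) (abs_nonneg _) (hω _)
    exact mul_le_of_le_one_left (abs_nonneg _) h5
  refine (sum_le_sum h4).trans ?_
  rw [sum_comm]
  have h6 : ∀ i ∈ Icc 1 H, ∑ m ∈ Ioc m₀ (m₀ + M), ∑ j ∈ (Icc 1 H).erase i,
      |mc g (ev h) (ev h) X (m + i) (m + j)| ≤ H * (X * M / Real.log X ^ U) := by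
    intro i hi
    rw [sum_comm]
    have h7 : ∀ j ∈ (Icc 1 H).erase i, ∑ m ∈ Ioc m₀ (m₀ + M),
        |mc g (ev h) (ev h) X (m + i) (m + j)| ≤ X * M / Real.log X ^ U := by
      intro j hj
      rw [mem_erase, mem_Icc] at hj
      rw [mem_Icc] at hi
      refine hB X hX m₀ M i j (fun e => hj.1 e.symm) ?_ ?_ hM hsz (ev h) hev
      · exact le_trans (by exact_mod_cast hi.2) hHL
      · exact le_trans (by exact_mod_cast hj.2.2) hHL
    refine (sum_le_card_nsmul _ _ _ h7).trans ?_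
    rw [nsmul_eq_mul]
    have h8 : 0 ≤ (X : ℝ) * M / Real.log X ^ U := by
      rcases Nat.eq_zero_or_pos X with hX0 | hX0
      · subst hX0
        simp
      · have : (1 : ℝ) ≤ X := by exact_mod_cast hX0
        have := Real.log_nonneg this
        positivity
    refine mul_le_mul_of_nonneg_right ?_ h8
    have h9 : ((Icc 1 H).erase i).card ≤ (Icc 1 H).card := card_le_card (erase_subset _ _)
    rw [Nat.card_Icc, Nat.add_sub_cancel] at h9
    exact_mod_cast h9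
  refine (sum_le_card_nsmul _ _ _ h6).trans (le_of_eq ?_)
  rw [Nat.card_Icc, Nat.add_sub_cancel, nsmul_eq_mul]
  ring

end Pool.Agent.Run7.h216.L
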