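import Pool.Agent.Run7.h285.L.Stm

/-!
# Project LIO (helper285), piece RM: the Rademacher-Menshov inequality
-/

set_option autoImplicit false
set_option linter.all false

open Finset

namespace Pool.Agent.Run7.h216.L

/-- The binary decomposition of one partial sum. -/
theorem one (x : ℕ → ℝ) (R H : ℕ) (hH : H ≤ 2 ^ R) :
    (∑ n ∈ Ioc 0 H, x n) ^ 2 ≤ ((R : ℝ) + 1) * ∑ j ∈ range (R + 1), ∑ i ∈ range (2 ^ (R - j)),
      (∑ n ∈ Ioc (i * 2 ^ j) ((i + 1) * 2 ^ j), x n) ^ 2 := by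
  set P : ℕ → ℝ := fun t => ∑ n ∈ Ioc 0 t, x n with hP
  set d : ℕ → ℝ := fun j => P (H / 2 ^ j * 2 ^ j) - P (H / 2 ^ (j + 1) * 2 ^ (j + 1)) with hd
  have htel : ∑ j ∈ range (R + 1), d j = P H := by
    rw [hd, Finset.sum_range_sub']
    have h1 : H / 2 ^ 0 * 2 ^ 0 = H := by simp
    have h2 : H / 2 ^ (R + 1) = 0 := by
      apply Nat.div_eq_of_lt
      have : 2 ^ R < 2 ^ (R + 1) := Nat.pow_lt_pow_right (by norm_num) (Nat.lt_succ_self R)
      omega
    rw [h1, h2, zero_mul]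
    have h3 : P 0 = 0 := by simp [hP]
    rw [h3, sub_zero]
  have hdj : ∀ j ∈ range (R + 1), d j ^ 2 ≤ ∑ i ∈ range (2 ^ (R - j)),
      (∑ n ∈ Ioc (i * 2 ^ j) ((i + 1) * 2 ^ j), x n) ^ 2 := by
    intro j hj
    have hjR : j ≤ R := by
      have := Finset.mem_range.1 hj
      omega
    have hdiv : H / 2 ^ (j + 1) = H / 2 ^ j / 2 := by
      rw [pow_succ, Nat.div_div_eq_div_mul]
    set q : ℕ := H / 2 ^ j with hq
    have hnn : 0 ≤ ∑ i ∈ range (2 ^ (R - j)),
      (∑ n ∈ Ioc (i * 2 ^ j) ((i + 1) * 2 ^ j), x n) ^ 2 := Finset.sum_nonneg fun i _ => sq_nonneg _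
    have h2 : H / 2 ^ (j + 1) * 2 ^ (j + 1) = (2 * (q / 2)) * 2 ^ j := by
      rw [hdiv, pow_succ]
      ring
    rcases Nat.mod_two_eq_zero_or_one q with hm | hm
    · have h3 : 2 * (q / 2) = q := by omega
      have h4 : d j = 0 := by
        rw [hd]
        simp only
        rw [h2, h3, ← hq, sub_self]
      rw [h4]
      simpa using hnn
    · have h3 : q = 2 * (q / 2) + 1 := by omega
      set i : ℕ := 2 * (q / 2) with hi
      have h4 : d j = ∑ n ∈ Ioc (i * 2 ^ j) ((i + 1) * 2 ^ j), x n := by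
        rw [hd]
        simp only
        rw [h2, ← hq, h3]
        simp only [hP]
        have hle : i * 2 ^ j ≤ (i + 1) * 2 ^ j := Nat.mul_le_mul_right _ (by omega)
        have h5 := Finset.sum_Ioc_consecutive x (Nat.zero_le (i * 2 ^ j)) hle
        linarith
      have hqR : q ≤ 2 ^ (R - j) := by
        rw [hq]
        apply Nat.div_le_of_le_mul
        rw [← pow_add, Nat.add_sub_cancel' hjR]
        exact hH
      rw [h4]
      exact Finset.single_le_sum (f := fun i => (∑ n ∈ Ioc (i * 2 ^ j) ((i + 1) * 2 ^ j), x n) ^ 2)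
        (fun i _ => sq_nonneg _) (Finset.mem_range.2 (by omega))
  have h1 : P H ^ 2 ≤ ((R : ℝ) + 1) * ∑ j ∈ range (R + 1), d j ^ 2 := by
    rw [← htel]
    have := sq_sum_le_card_mul_sum_sq (s := range (R + 1)) (f := d)
    rw [Finset.card_range] at this
    push_cast at this
    exact this
  refine h1.trans ?_
  exact mul_le_mul_of_nonneg_left (Finset.sum_le_sum hdj) (by positivity)

theorem rm : Run7.h285.L.S_RM := by
  intro α S x R A Q hA hQ hblk H hH
  have h1 : ∑ s ∈ S, (∑ n ∈ Ioc 0 (H s), x s n) ^ 2 ≤ ∑ s ∈ S, ((R : ℝ) + 1) *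
      ∑ j ∈ range (R + 1), ∑ i ∈ range (2 ^ (R - j)),
        (∑ n ∈ Ioc (i * 2 ^ j) ((i + 1) * 2 ^ j), x s n) ^ 2 :=
    Finset.sum_le_sum fun s hs => one (x s) R (H s) (hH s hs)
  refine h1.trans ?_
  rw [← Finset.mul_sum, Finset.sum_comm]
  have h2 : ∀ j ∈ range (R + 1), ∑ s ∈ S, ∑ i ∈ range (2 ^ (R - j)),
        (∑ n ∈ Ioc (i * 2 ^ j) ((i + 1) * 2 ^ j), x s n) ^ 2 ≤ A * 2 ^ R + Q * 4 ^ R := by
    intro j hj
    have hjR : j ≤ R := by
      have := Finset.mem_range.1 hj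
      omega
    rw [Finset.sum_comm]
    refine (Finset.sum_le_card_nsmul _ _ (A * 2 ^ j + Q * 4 ^ j) fun i hi =>
      hblk j i hjR (Finset.mem_range.1 hi)).trans ?_
    rw [Finset.card_range, nsmul_eq_mul]
    push_cast
    obtain ⟨e, rfl⟩ : ∃ e, R = j + e := ⟨R - j, by omega⟩
    rw [Nat.add_sub_cancel_left]
    have h3 : (2 : ℝ) ^ e * (A * 2 ^ j + Q * 4 ^ j) = A * 2 ^ (j + e) + Q * (2 ^ e * 4 ^ j) := by
      rw [pow_add]; ring
    rw [h3]
    have h4 : (2 : ℝ) ^ e * 4 ^ j ≤ 4 ^ (j + e) := by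
      rw [pow_add, mul_comm ((2 : ℝ) ^ e)]
      refine mul_le_mul_of_nonneg_left ?_ (by positivity)
      exact pow_le_pow_left₀ (by norm_num) (by norm_num) _
    have := mul_le_mul_of_nonneg_left h4 hQ
    linarith
  have h5 := Finset.sum_le_card_nsmul _ _ _ h2
  rw [Finset.card_range, nsmul_eq_mul] at h5
  push_cast at h5
  have h6 := mul_le_mul_of_nonneg_left h5 (show 0 ≤ (R : ℝ) + 1 by positivity)
  refine h6.trans (le_of_eq ?_)
  ring

end Pool.Agent.Run7.h216.L
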